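import Pool.Agent.H55DA.Main

/-! For every `d ≥ 2` there is a multiplier `f` of the Drury-Arveson space `H²_d` all of whose
slices are outer functions and for which `[f^n] ≠ [f^{n+1}]` for every `n`. -/

namespace Pool.Agent.Results.MP_2f94f8_an.OuterSlices

open Pool.Agent.H55DA

theorem result (d : ℕ) (hd : 2 ≤ d) :
    ∃ f ∈ Mult d,
      (∀ z : Cd d, ‖z‖ = 1 → IsOuter (fun w : ℂ => f (w • z))) ∧
      ∀ n : ℕ, cyc (f ^ n) ≠ cyc (f ^ (n + 1)) :=
  Pool.Agent.H55DA.main d hd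

end Pool.Agent.Results.MP_2f94f8_an.OuterSlices
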